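import Pool.Agent.Helper43.Fr.Goals

/-!
Packet SGN (MP_c866d3_nt): the signs.
-/

namespace Pool.Agent.Helper43.Fr.PkSGN

open scoped PowerSeries Polynomial
open Pool.Agent.Helper43.Fr

noncomputable section

theorem stepD {A : Type*} [CommRing A] [IsDomain A] (x y V q x0 x1 al be ga M Px Py : A)
    (h e1 e2 : ℕ) (hal : al ≠ 0) (hV : V ^ 2 = q)
    (hx : al ^ 2 * x = x0 + x1 * V) (hy : al ^ 2 * y = x0 - x1 * V)
    (hbe : be ^ 2 * al ^ 2 = al ^ 4 - 64 * al ^ 2 * x0 + 1024 * (x0 ^ 2 - q * x1 ^ 2))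
    (hga : ga ^ 2 * al ^ 2 = al ^ 4 + 8 * al ^ 2 * x0 + 16 * (x0 ^ 2 - q * x1 ^ 2))
    (hf : (1 - 32 * x) ^ e1 * (1 + 4 * x) ^ e2 * Px ^ 2 * M ^ (2 * h) =
      (1 - 32 * y) ^ e1 * (1 + 4 * y) ^ e2 * Py ^ 2) :
    (Px * M ^ h * be ^ e1 * ga ^ e2) ^ 2 =
      ((al * (1 - 32 * y)) ^ e1 * (al * (1 + 4 * y)) ^ e2 * Py) ^ 2 := by
  have be2 : be ^ 2 = al ^ 2 * (1 - 32 * x) * (1 - 32 * y) := by
    apply mul_left_cancel₀ (pow_ne_zero 2 hal)
    linear_combination hbe + 32 * al ^ 2 * hx + 32 * al ^ 2 * hy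
      - 1024 * (al ^ 2 * y * hx + (x0 + x1 * V) * hy - x1 ^ 2 * hV)
  have ga2 : ga ^ 2 = al ^ 2 * (1 + 4 * x) * (1 + 4 * y) := by
    apply mul_left_cancel₀ (pow_ne_zero 2 hal)
    linear_combination hga - 4 * al ^ 2 * hx - 4 * al ^ 2 * hy
      - 16 * (al ^ 2 * y * hx + (x0 + x1 * V) * hy - x1 ^ 2 * hV)
  calc (Px * M ^ h * be ^ e1 * ga ^ e2) ^ 2
      = Px ^ 2 * M ^ (2 * h) * (be ^ 2) ^ e1 * (ga ^ 2) ^ e2 := by ring
    _ = (al ^ 2) ^ e1 * (al ^ 2) ^ e2 * (1 - 32 * y) ^ e1 * (1 + 4 * y) ^ e2 *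
        ((1 - 32 * x) ^ e1 * (1 + 4 * x) ^ e2 * Px ^ 2 * M ^ (2 * h)) := by
        rw [be2, ga2, mul_pow, mul_pow, mul_pow, mul_pow]; ring
    _ = ((al * (1 - 32 * y)) ^ e1 * (al * (1 + 4 * y)) ^ e2 * Py) ^ 2 := by
        rw [hf, mul_pow al (1 - 32 * y), mul_pow al (1 + 4 * y)]; ring

/-- homogenised value -/
theorem ph {K S : Type*} [CommRing K] [CommRing S] (ρ : K →+* S) (P : K[X]) (m z : S) :
    ∑ i ∈ Finset.range (P.natDegree + 1), ρ (P.coeff i) * (m * z) ^ i * m ^ (P.natDegree - i) =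
      m ^ P.natDegree * P.eval₂ ρ z := by
  rw [Polynomial.eval₂_eq_sum_range, Finset.mul_sum]
  refine Finset.sum_congr rfl fun i hi => ?_
  have hi' : i ≤ P.natDegree := Nat.lt_succ_iff.mp (Finset.mem_range.mp hi)
  have : m ^ P.natDegree = m ^ i * m ^ (P.natDegree - i) := by
    rw [← pow_add]; congr 1; omega
  rw [this]; ring

/-- the polynomial relation in `Y` -/
def Pol {K : Type*} [CommRing K] (P x0 x1 c0 c1 al be ga : K[X]) (h e1 e2 : ℕ) : K[X][X] :=
  (∑ i ∈ Finset.range (P.natDegree + 1), Polynomial.C (Polynomial.C (P.coeff i)) *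
      (Polynomial.C x0 + Polynomial.C x1 * Polynomial.X) ^ i *
      (Polynomial.C (al ^ 2)) ^ (P.natDegree - i)) *
    (Polynomial.C c0 + Polynomial.C c1 * Polynomial.X) ^ h *
    (Polynomial.C (al * be)) ^ e1 * (Polynomial.C (al * ga)) ^ e2
  - (Polynomial.C al) ^ h *
    (Polynomial.C (al ^ 2) - 32 * (Polynomial.C x0 - Polynomial.C x1 * Polynomial.X)) ^ e1 *
    (Polynomial.C (al ^ 2) + 4 * (Polynomial.C x0 - Polynomial.C x1 * Polynomial.X)) ^ e2 *
    (∑ i ∈ Finset.range (P.natDegree + 1), Polynomial.C (Polynomial.C (P.coeff i)) *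
      (Polynomial.C x0 - Polynomial.C x1 * Polynomial.X) ^ i *
      (Polynomial.C (al ^ 2)) ^ (P.natDegree - i))

theorem evPol {K S : Type*} [CommRing K] [CommRing S] (P x0 x1 c0 c1 al be ga : K[X])
    (h e1 e2 : ℕ) (φ : K[X] →+* S) (v z z' m : S) (hm : φ al ^ 2 = m)
    (hz : φ x0 + φ x1 * v = m * z) (hz' : φ x0 - φ x1 * v = m * z') :
    Polynomial.eval₂ φ v (Pol P x0 x1 c0 c1 al be ga h e1 e2) =
      m ^ P.natDegree * P.eval₂ (φ.comp Polynomial.C) z * (φ c0 + φ c1 * v) ^ h *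
        (φ al * φ be) ^ e1 * (φ al * φ ga) ^ e2
      - φ al ^ h * (m - 32 * (m * z')) ^ e1 * (m + 4 * (m * z')) ^ e2 *
        (m ^ P.natDegree * P.eval₂ (φ.comp Polynomial.C) z') := by
  rw [← ph, ← ph]
  have hs : ∀ u : S, ∀ Q : K[X][X], Polynomial.eval₂ φ v Q = u →
      Polynomial.eval₂ φ v (∑ i ∈ Finset.range (P.natDegree + 1),
        Polynomial.C (Polynomial.C (P.coeff i)) * Q ^ i *
        (Polynomial.C (al ^ 2)) ^ (P.natDegree - i)) =
      ∑ i ∈ Finset.range (P.natDegree + 1), (φ.comp Polynomial.C) (P.coeff i) * u ^ i *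
        m ^ (P.natDegree - i) := by
    intro u Q hQ
    rw [Polynomial.eval₂_finsetSum]
    refine Finset.sum_congr rfl fun i _ => ?_
    simp only [Polynomial.eval₂_mul, Polynomial.eval₂_pow, Polynomial.eval₂_C, hQ, map_pow, hm,
      RingHom.comp_apply]
  have hq1 : Polynomial.eval₂ φ v (Polynomial.C x0 + Polynomial.C x1 * Polynomial.X) = m * z := by
    simp [Polynomial.eval₂_add, Polynomial.eval₂_mul, hz]
  have hq2 : Polynomial.eval₂ φ v (Polynomial.C x0 - Polynomial.C x1 * Polynomial.X) = m * z' := by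
    simp [Polynomial.eval₂_sub, Polynomial.eval₂_mul, hz']
  have h32 : Polynomial.eval₂ φ v (32 : K[X][X]) = 32 := by simp
  have h4 : Polynomial.eval₂ φ v (4 : K[X][X]) = 4 := by simp
  unfold Pol
  rw [Polynomial.eval₂_sub, Polynomial.eval₂_mul, Polynomial.eval₂_mul, Polynomial.eval₂_mul,
    Polynomial.eval₂_mul, Polynomial.eval₂_mul, Polynomial.eval₂_mul, hs _ _ hq1, hs _ _ hq2]
  simp only [Polynomial.eval₂_pow, Polynomial.eval₂_add, Polynomial.eval₂_sub,
    Polynomial.eval₂_mul, Polynomial.eval₂_C, Polynomial.eval₂_X, h32, h4, map_pow, map_mul, hm,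
    hz']

theorem core (hNSQ : G_NSQ) (K : Type) [Field K] (h2 : (2 : K) ≠ 0)
    (P q x0 x1 c0 c1 al be ga : K[X]) (V x y M : K⟦X⟧) (h e1 e2 : ℕ)
    (hV : V ^ 2 = (q : K⟦X⟧)) (hxc : PowerSeries.constantCoeff x = 0)
    (hyc : PowerSeries.constantCoeff y = 0) (hM0 : PowerSeries.constantCoeff M = 1)
    (hal0 : al.coeff 0 ≠ 0) (hbe0 : be.coeff 0 = al.coeff 0) (hga0 : ga.coeff 0 = al.coeff 0)
    (hx : (al : K⟦X⟧) ^ 2 * x = (x0 : K⟦X⟧) + (x1 : K⟦X⟧) * V)
    (hy : (al : K⟦X⟧) ^ 2 * y = (x0 : K⟦X⟧) - (x1 : K⟦X⟧) * V)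
    (hM : (al : K⟦X⟧) * M = (c0 : K⟦X⟧) + (c1 : K⟦X⟧) * V)
    (hbe : be ^ 2 * al ^ 2 = al ^ 4 - 64 * al ^ 2 * x0 + 1024 * (x0 ^ 2 - q * x1 ^ 2))
    (hga : ga ^ 2 * al ^ 2 = al ^ 4 + 8 * al ^ 2 * x0 + 16 * (x0 ^ 2 - q * x1 ^ 2))
    (hP0 : P.coeff 0 = 1)
    (hf : (1 - 32 * x) ^ e1 * (1 + 4 * x) ^ e2 * (Polynomial.eval₂ PowerSeries.C x P) ^ 2 *
        M ^ (2 * h) =
      (1 - 32 * y) ^ e1 * (1 + 4 * y) ^ e2 * (Polynomial.eval₂ PowerSeries.C y P) ^ 2)
    (hPs : ∀ r : K, P.eval r = 0 → (Polynomial.derivative P).eval r ≠ 0)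
    (t0 ξ : K) (hq : q.eval t0 = 0) (hq' : (Polynomial.derivative q).eval t0 ≠ 0)
    (hal : al.eval t0 ≠ 0) (hx1 : x1.eval t0 ≠ 0) (hξ : x0.eval t0 = al.eval t0 ^ 2 * ξ)
    (s : K) (hs1 : P.eval ξ = 0 → s = -1) (hs2 : P.eval ξ ≠ 0 → s = 1) :
    (c0.eval t0) ^ h * (be.eval t0) ^ e1 * (ga.eval t0) ^ e2 =
      s * (al.eval t0) ^ h *
        (al.eval t0 * (1 - 32 * ξ)) ^ e1 * (al.eval t0 * (1 + 4 * ξ)) ^ e2 := by
  -- the identity in power series
  have halne : (al : K⟦X⟧) ≠ 0 := by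
    intro h0
    apply hal0
    have := congrArg (PowerSeries.coeff 0) h0
    simpa using this
  have hbe' : (be : K⟦X⟧) ^ 2 * (al : K⟦X⟧) ^ 2 = (al : K⟦X⟧) ^ 4 - 64 * (al : K⟦X⟧) ^ 2 * x0 +
      1024 * ((x0 : K⟦X⟧) ^ 2 - q * (x1 : K⟦X⟧) ^ 2) := by
    have := congrArg (Polynomial.coeToPowerSeries.ringHom (R := K)) hbe
    simpa only [map_mul, map_pow, map_add, map_sub, map_ofNat,
      Polynomial.coeToPowerSeries.ringHom_apply] using this
  have hga' : (ga : K⟦X⟧) ^ 2 * (al : K⟦X⟧) ^ 2 = (al : K⟦X⟧) ^ 4 + 8 * (al : K⟦X⟧) ^ 2 * x0 +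
      16 * ((x0 : K⟦X⟧) ^ 2 - q * (x1 : K⟦X⟧) ^ 2) := by
    have := congrArg (Polynomial.coeToPowerSeries.ringHom (R := K)) hga
    simpa only [map_mul, map_pow, map_add, map_sub, map_ofNat,
      Polynomial.coeToPowerSeries.ringHom_apply] using this
  have hsq := stepD x y V (q : K⟦X⟧) x0 x1 al be ga M _ _ h e1 e2 halne hV hx hy hbe' hga' hf
  have hPc : ∀ z : K⟦X⟧, PowerSeries.constantCoeff z = 0 →
      PowerSeries.constantCoeff (Polynomial.eval₂ PowerSeries.C z P) = 1 := by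
    intro z hz
    rw [Polynomial.hom_eval₂, hz, ← hP0]
    have : (PowerSeries.constantCoeff (R := K)).comp PowerSeries.C = RingHom.id K := by
      ext a; simp
    rw [this, Polynomial.coeff_zero_eq_eval_zero, Polynomial.eval₂_id]
  have hlin : Polynomial.eval₂ PowerSeries.C x P * M ^ h * (be : K⟦X⟧) ^ e1 * (ga : K⟦X⟧) ^ e2 =
      ((al : K⟦X⟧) * (1 - 32 * y)) ^ e1 * ((al : K⟦X⟧) * (1 + 4 * y)) ^ e2 *
        Polynomial.eval₂ PowerSeries.C y P := by
    rcases sq_eq_sq_iff_eq_or_eq_neg.mp hsq with h1 | h1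
    · exact h1
    · exfalso
      have h3 := congrArg (PowerSeries.constantCoeff (R := K)) h1
      simp only [map_mul, map_pow, map_neg, map_sub, map_add, map_one, map_ofNat, hPc x hxc,
        hPc y hyc, hM0, hyc, Polynomial.constantCoeff_coe, hbe0, hga0] at h3
      have h4 : (2 : K) * (al.coeff 0 ^ e1 * al.coeff 0 ^ e2) = 0 := by
        linear_combination h3
      rcases mul_eq_zero.mp h4 with h5 | h5
      · exact h2 h5
      · exact mul_ne_zero (pow_ne_zero _ hal0) (pow_ne_zero _ hal0) h5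
  have hpol : Polynomial.eval₂ (Polynomial.coeToPowerSeries.ringHom (R := K)) V
      (Pol P x0 x1 c0 c1 al be ga h e1 e2) = 0 := by
    rw [evPol P x0 x1 c0 c1 al be ga h e1 e2 (Polynomial.coeToPowerSeries.ringHom (R := K)) V x y
      ((al : K⟦X⟧) ^ 2) rfl hx.symm hy.symm]
    have hC : (Polynomial.coeToPowerSeries.ringHom (R := K)).comp Polynomial.C =
        PowerSeries.C := by
      ext1 a; simp
    rw [hC]
    simp only [Polynomial.coeToPowerSeries.ringHom_apply]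
    rw [← hM]
    have e1' : ((al : K⟦X⟧) ^ 2 - 32 * ((al : K⟦X⟧) ^ 2 * y)) =
        (al : K⟦X⟧) * ((al : K⟦X⟧) * (1 - 32 * y)) := by ring
    have e2' : ((al : K⟦X⟧) ^ 2 + 4 * ((al : K⟦X⟧) ^ 2 * y)) =
        (al : K⟦X⟧) * ((al : K⟦X⟧) * (1 + 4 * y)) := by ring
    rw [e1', e2']
    have := congrArg (fun w => ((al : K⟦X⟧) ^ 2) ^ P.natDegree * (al : K⟦X⟧) ^ h *
      (al : K⟦X⟧) ^ e1 * (al : K⟦X⟧) ^ e2 * w) hlin
    beta_reduce at this
    rw [mul_pow (al : K⟦X⟧) M, mul_pow (al : K⟦X⟧) (be : K⟦X⟧), mul_pow (al : K⟦X⟧) (ga : K⟦X⟧),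
      mul_pow (al : K⟦X⟧) ((al : K⟦X⟧) * (1 - 32 * y)),
      mul_pow (al : K⟦X⟧) ((al : K⟦X⟧) * (1 + 4 * y))]
    linear_combination this
  -- transfer to dual numbers
  set m : K := al.eval t0 ^ 2 with hmdef
  have hm0 : m ≠ 0 := pow_ne_zero 2 hal
  set b : K := x1.eval t0 / m with hb
  have hb0 : b ≠ 0 := div_ne_zero hx1 hm0
  let ι : K →+* DualNumber K := algebraMap K (DualNumber K)
  let φ : K[X] →+* DualNumber K := ι.comp (Polynomial.evalRingHom t0)
  have hφ : ∀ f : K[X], φ f = ι (f.eval t0) := fun f => rfl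
  have heps : (DualNumber.eps : DualNumber K) ^ 2 = 0 := by
    rw [pow_two]; exact DualNumber.eps_mul_eps
  have hz := hNSQ K q t0 hq hq' V hV _ hpol (DualNumber K) φ DualNumber.eps
    (by rw [heps, hφ, hq, map_zero])
  have hx1m : x1.eval t0 = m * b := by rw [hb]; field_simp
  rw [evPol P x0 x1 c0 c1 al be ga h e1 e2 φ DualNumber.eps (ι ξ + ι b * DualNumber.eps)
    (ι ξ - ι b * DualNumber.eps) (ι m) (by rw [hφ, ← map_pow])
    (by rw [hφ, hφ, hξ, hx1m, map_mul, map_mul]; ring)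
    (by rw [hφ, hφ, hξ, hx1m, map_mul, map_mul]; ring)] at hz
  have hρ : φ.comp Polynomial.C = ι := by
    ext1 a
    simp [φ]
  have hP1 : Polynomial.eval₂ ι (ι ξ + ι b * DualNumber.eps) P =
      ι (P.eval ξ) + ι ((Polynomial.derivative P).eval ξ) * (ι b * DualNumber.eps) := by
    have := Polynomial.aeval_add_of_sq_eq_zero (S := DualNumber K) P (ι ξ)
      (ι b * DualNumber.eps) (by rw [mul_pow, heps, mul_zero])
    have hh : ∀ Q : K[X], Polynomial.aeval (ι ξ) Q = ι (Q.eval ξ) := by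
      intro Q
      exact Polynomial.aeval_algebraMap_apply_eq_algebraMap_eval ξ Q
    rw [hh, hh] at this
    exact this
  have hP2 : Polynomial.eval₂ ι (ι ξ - ι b * DualNumber.eps) P =
      ι (P.eval ξ) - ι ((Polynomial.derivative P).eval ξ) * (ι b * DualNumber.eps) := by
    have := Polynomial.aeval_add_of_sq_eq_zero (S := DualNumber K) P (ι ξ)
      (-(ι b * DualNumber.eps)) (by rw [neg_pow, mul_pow, heps, mul_zero, mul_zero])
    have hh : ∀ Q : K[X], Polynomial.aeval (ι ξ) Q = ι (Q.eval ξ) := by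
      intro Q
      exact Polynomial.aeval_algebraMap_apply_eq_algebraMap_eval ξ Q
    rw [hh, hh, mul_neg, ← sub_eq_add_neg, ← sub_eq_add_neg] at this
    exact this
  rw [hρ, hP1, hP2] at hz
  simp only [hφ] at hz
  let π : DualNumber K →+* K := (TrivSqZeroExt.fstHom K K K).toRingHom
  have hπι : ∀ a : K, π (ι a) = a := fun a => by simp [π, ι]
  have hπe : π DualNumber.eps = 0 := by simp [π]
  have hmal : m = al.eval t0 * al.eval t0 := by rw [hmdef]; ring
  -- the common final step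
  have fin : ∀ s : K, (c0.eval t0) ^ h * (al.eval t0 * be.eval t0) ^ e1 *
      (al.eval t0 * ga.eval t0) ^ e2 =
      s * (al.eval t0 ^ h * (m - 32 * (m * ξ)) ^ e1 * (m + 4 * (m * ξ)) ^ e2) →
      (c0.eval t0) ^ h * (be.eval t0) ^ e1 * (ga.eval t0) ^ e2 =
      s * (al.eval t0) ^ h *
        (al.eval t0 * (1 - 32 * ξ)) ^ e1 * (al.eval t0 * (1 + 4 * ξ)) ^ e2 := by
    intro s hs
    have e1' : m - 32 * (m * ξ) = al.eval t0 * (al.eval t0 * (1 - 32 * ξ)) := by
      rw [hmal]; ring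
    have e2' : m + 4 * (m * ξ) = al.eval t0 * (al.eval t0 * (1 + 4 * ξ)) := by
      rw [hmal]; ring
    rw [e1', e2', mul_pow (al.eval t0) (be.eval t0), mul_pow (al.eval t0) (ga.eval t0),
      mul_pow (al.eval t0) (al.eval t0 * (1 - 32 * ξ)),
      mul_pow (al.eval t0) (al.eval t0 * (1 + 4 * ξ))] at hs
    apply mul_left_cancel₀ (mul_ne_zero (pow_ne_zero e1 hal) (pow_ne_zero e2 hal))
    linear_combination hs
  by_cases hPξ : P.eval ξ = 0
  · rw [hs1 hPξ]
    apply fin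
    rw [hPξ, map_zero, zero_add, zero_sub] at hz
    set W : DualNumber K := ι ((Polynomial.derivative P).eval ξ) * ι b * ι m ^ P.natDegree *
      ((ι (c0.eval t0) + ι (c1.eval t0) * DualNumber.eps) ^ h *
        (ι (al.eval t0) * ι (be.eval t0)) ^ e1 * (ι (al.eval t0) * ι (ga.eval t0)) ^ e2 +
      ι (al.eval t0) ^ h * (ι m - 32 * (ι m * (ι ξ - ι b * DualNumber.eps))) ^ e1 *
        (ι m + 4 * (ι m * (ι ξ - ι b * DualNumber.eps))) ^ e2) with hW
    have hW0 : DualNumber.eps * W = 0 := by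
      rw [hW]
      linear_combination hz
    have hW1 : π W = 0 := by
      have := congrArg TrivSqZeroExt.snd hW0
      simpa [π] using this
    rw [hW] at hW1
    simp only [map_mul, map_add, map_sub, map_pow, map_ofNat, hπι, hπe, mul_zero, add_zero,
      sub_zero] at hW1
    have hne : (Polynomial.derivative P).eval ξ * b * m ^ P.natDegree ≠ 0 :=
      mul_ne_zero (mul_ne_zero (hPs ξ hPξ) hb0) (pow_ne_zero _ hm0)
    have := (mul_eq_zero.mp hW1).resolve_left hne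
    linear_combination this
  · rw [hs2 hPξ]
    apply fin
    have h3 := congrArg π hz
    simp only [map_mul, map_add, map_sub, map_pow, map_ofNat, hπι, hπe, mul_zero, add_zero,
      sub_zero, map_zero] at h3
    have hne : m ^ P.natDegree * P.eval ξ ≠ 0 := mul_ne_zero (pow_ne_zero _ hm0) hPξ
    apply mul_left_cancel₀ hne
    linear_combination h3

theorem F1_map {R S : Type*} [CommRing R] [CommRing S] (φ : R →+* S) (p : ℕ) :
    (F1 R p).map φ = F1 S p := by
  simp [F1, Polynomial.map_sum, Polynomial.map_monomial]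

theorem sgn : G_SQF → G_KAP → G_NSQ → G_SGN := by
  intro hSQF hKAP hNSQ p _ hp C t0 ξ hq hq' hal hc0 hx1 hD hx0 e1 e2 he1 he2
  let K := AlgebraicClosure (ZMod p)
  have : CharP K p := charP_of_injective_algebraMap (algebraMap (ZMod p) K).injective p
  let ι : ZMod p →+* K := algebraMap (ZMod p) K
  have hι : Function.Injective ι := (algebraMap (ZMod p) K).injective
  let red : ℤ_[p] →+* K := ι.comp PadicInt.toZMod
  have hred : ∀ (f : ℤ_[p][X]) (t : ZMod p), (f.map red).eval (ι t) = ι (ev t f) := by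
    intro f t
    rw [Polynomial.eval_map, ev, Polynomial.hom_eval₂]
  obtain ⟨f1, f2, P, hF, hP0, hPs, hf1, hf2⟩ := hSQF p hp K
  rw [← he1] at hf1
  rw [← he2] at hf2
  subst hf1 hf2
  let R : ℤ_[p]⟦X⟧ →+* K⟦X⟧ := PowerSeries.map red
  have hR : ∀ f : ℤ_[p][X], R (f : ℤ_[p]⟦X⟧) = ((f.map red : K[X]) : K⟦X⟧) := fun f =>
    Polynomial.polynomial_map_coe.symm
  have h2K : (2 : K) ≠ 0 := by
    intro h0
    have h1 : ((2 : ℕ) : K) = 0 := by exact_mod_cast h0
    rw [CharP.cast_eq_zero_iff K p] at h1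
    have := Nat.le_of_dvd (by norm_num) h1
    omega
  -- values of the truncation
  have hRF : ∀ a : ℤ_[p]⟦X⟧, R (Polynomial.aeval a (F1 ℤ_[p] p)) =
      (1 - 32 * R a) ^ f1 * (1 + 4 * R a) ^ f2 *
        (Polynomial.eval₂ PowerSeries.C (R a) P) ^ 2 := by
    intro a
    have h1 : R (Polynomial.aeval a (F1 ℤ_[p] p)) =
        Polynomial.eval₂ PowerSeries.C (R a) (F1 K p) := by
      rw [← F1_map red p, Polynomial.eval₂_map, Polynomial.aeval_def, Polynomial.hom_eval₂]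
      congr 1
      ext1 c
      simp only [RingHom.comp_apply, R]
      rw [← PowerSeries.C_eq_algebraMap]
      simp
    rw [h1, hF]
    simp only [Polynomial.eval₂_mul, Polynomial.eval₂_pow, Polynomial.eval₂_sub,
      Polynomial.eval₂_add, Polynomial.eval₂_one, Polynomial.eval₂_X, Polynomial.eval₂_ofNat]
  have hpodd : 2 * ((p - 1) / 2) = p - 1 := by
    have hodd : Odd p := (Fact.out : p.Prime).odd_of_ne_two (by omega)
    obtain ⟨k, hk⟩ := hodd
    omega
  have hkap : (1 - 32 * R C.x) ^ f1 * (1 + 4 * R C.x) ^ f2 *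
        (Polynomial.eval₂ PowerSeries.C (R C.x) P) ^ 2 * (R C.M) ^ (2 * ((p - 1) / 2)) =
      (1 - 32 * R C.y) ^ f1 * (1 + 4 * R C.y) ^ f2 *
        (Polynomial.eval₂ PowerSeries.C (R C.y) P) ^ 2 := by
    obtain ⟨⟨w, hw⟩, -⟩ := hKAP p hp C
    have h1 := congrArg R hw
    have h2 : (R (p : ℤ_[p]⟦X⟧)) = 0 := by
      rw [map_natCast]
      have h3 : ((p : ℕ) : K⟦X⟧) = PowerSeries.C ((p : ℕ) : K) :=
        (map_natCast (PowerSeries.C (R := K)) p).symm
      rw [h3, CharP.cast_eq_zero K p, map_zero]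
    rw [map_sub, map_mul, map_pow, map_mul, h2, zero_mul, hRF, hRF] at h1
    rw [hpodd]
    exact sub_eq_zero.mp h1
  have hcc : ∀ f : ℤ_[p]⟦X⟧,
      PowerSeries.constantCoeff (R f) = red (PowerSeries.constantCoeff f) := by
    intro f
    rw [← PowerSeries.coeff_zero_eq_constantCoeff_apply,
      ← PowerSeries.coeff_zero_eq_constantCoeff_apply]
    exact PowerSeries.coeff_map red 0 f
  have hDD : DD ξ = (1 - 32 * ξ) * (1 + 4 * ξ) := by simp only [DD]; ring
  rw [hDD] at hD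
  have hPev : P.eval (ι ξ) = 0 ↔ (F1 (ZMod p) p).eval ξ = 0 := by
    have h1 : (F1 K p).eval (ι ξ) = ι ((F1 (ZMod p) p).eval ξ) := by
      rw [← F1_map ι p, Polynomial.eval_map, Polynomial.eval₂_at_apply]
    rw [hF] at h1
    simp only [Polynomial.eval_mul, Polynomial.eval_pow, Polynomial.eval_sub, Polynomial.eval_add,
      Polynomial.eval_one, Polynomial.eval_X, Polynomial.eval_ofNat] at h1
    have h3 : (1 - 32 * ι ξ) ≠ 0 := by
      intro h0
      apply left_ne_zero_of_mul hD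
      apply hι
      rw [map_zero, ← h0]
      simp only [map_sub, map_mul, map_one, map_ofNat]
    have h4 : (1 + 4 * ι ξ) ≠ 0 := by
      intro h0
      apply right_ne_zero_of_mul hD
      apply hι
      rw [map_zero, ← h0]
      simp only [map_add, map_mul, map_one, map_ofNat]
    constructor
    · intro h0
      apply hι
      rw [map_zero, ← h1, h0]; simp
    · intro h0
      rw [h0, map_zero] at h1
      rcases mul_eq_zero.mp h1 with h5 | h5
      · exact absurd h5 (mul_ne_zero (pow_ne_zero _ h3) (pow_ne_zero _ h4))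
      · exact pow_eq_zero_iff (two_ne_zero) |>.mp h5
  have main := core hNSQ K h2K P (C.q.map red) (C.x0.map red) (C.x1.map red) (C.c0.map red)
    (C.c1.map red) (C.al.map red) (C.be.map red) (C.ga.map red) (R C.V) (R C.x) (R C.y) (R C.M)
    ((p - 1) / 2) f1 f2
    (by rw [← hR, ← C.hV, map_pow])
    (by rw [hcc, C.hxc, map_zero])
    (by rw [hcc, C.hyc, map_zero])
    (by rw [hcc, C.hM0, map_one])
    (by rw [Polynomial.coeff_map]; exact (C.hal0.map red).ne_zero)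
    (by rw [Polynomial.coeff_map, Polynomial.coeff_map, C.hbe0])
    (by rw [Polynomial.coeff_map, Polynomial.coeff_map, C.hga0])
    (by simp only [← hR]; rw [← map_pow, ← map_mul, C.hx, map_add, map_mul])
    (by simp only [← hR]; rw [← map_pow, ← map_mul, C.hy, map_sub, map_mul])
    (by simp only [← hR]; rw [← map_mul, C.hM, map_add, map_mul])
    (by
      have := congrArg (Polynomial.mapRingHom red) C.hbe
      simpa only [map_mul, map_pow, map_add, map_sub, map_ofNat, Polynomial.coe_mapRingHom]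
        using this)
    (by
      have := congrArg (Polynomial.mapRingHom red) C.hga
      simpa only [map_mul, map_pow, map_add, map_sub, map_ofNat, Polynomial.coe_mapRingHom]
        using this)
    hP0 hkap hPs (ι t0) (ι ξ)
    (by rw [hred, hq, map_zero])
    (by
      rw [Polynomial.derivative_map, hred]
      exact fun h0 => hq' (hι (by rw [h0, map_zero])))
    (by rw [hred]; exact fun h0 => hal (hι (by rw [h0, map_zero])))
    (by rw [hred]; exact fun h0 => hx1 (hι (by rw [h0, map_zero])))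
    (by rw [hred, hred, hx0, map_mul, map_pow])
    (ι (if (F1 (ZMod p) p).eval ξ = 0 then -1 else 1))
    (by
      intro h0
      rw [if_pos (hPev.mp h0)]; simp)
    (by
      intro h0
      rw [if_neg (fun h1 => h0 (hPev.mpr h1))]; simp)
  simp only [hred] at main
  apply hι
  simp only [map_mul, map_pow, map_sub, map_add, map_one, map_ofNat]
  exact main

end

end Pool.Agent.Helper43.Fr.PkSGN
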